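import Pool.Agent.UL3.Stmts

/-!
Squad UL3 (MP_c7c9bf_co), row PAC (helper75): the area of a dodecagon.
-/

set_option autoImplicit false

namespace Pool.Agent.UL3.H75

open MeasureTheory Set

/-- the part of `N` between the levels `a` and `b` -/
def strip (N : Set (ℝ × ℝ)) (a b : ℝ) : Set (ℝ × ℝ) := N ∩ (Ioo a b ×ˢ univ)

theorem strip_add (N : Set (ℝ × ℝ)) (hN : MeasurableSet N) (a b c : ℝ) (hab : a ≤ b) (hbc : b ≤ c) :
    volume (strip N a b) + volume (strip N b c) ≤ volume (strip N a c) := by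
  have hm : MeasurableSet (strip N b c) := hN.inter (measurableSet_Ioo.prod MeasurableSet.univ)
  have hd : Disjoint (strip N a b) (strip N b c) := by
    rw [Set.disjoint_left]
    rintro ⟨t, s⟩ ⟨_, h1, _⟩ ⟨_, h2, _⟩
    simp only [mem_Ioo] at h1 h2
    linarith [h1.2, h2.1]
  rw [← measure_union hd hm]
  apply measure_mono
  rintro ⟨t, s⟩ (⟨h1, h2, h3⟩ | ⟨h1, h2, h3⟩)
  · exact ⟨h1, ⟨h2.1, lt_of_lt_of_le h2.2 hbc⟩, h3⟩
  · exact ⟨h1, ⟨lt_of_le_of_lt hab h2.1, h2.2⟩, h3⟩

theorem int_lin (a b c0 c1 : ℝ) :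
    ∫ t in a..b, (c0 + c1 * (t - a)) = c0 * (b - a) + c1 * (b - a) ^ 2 / 2 := by
  have h : ∀ t ∈ uIcc a b, HasDerivAt (fun t : ℝ => c0 * (t - a) + c1 * (t - a) ^ 2 / 2)
      (c0 + c1 * (t - a)) t := by
    intro t _
    have h1 : HasDerivAt (fun t : ℝ => t - a) 1 t := (hasDerivAt_id t).sub_const a
    have h2 := (h1.const_mul c0).add ((h1.pow 2).const_mul (c1 / 2))
    refine (h2.congr_deriv ?_).congr_of_eventuallyEq (Filter.Eventually.of_forall fun t => ?_)
    · simp only [Nat.cast_ofNat]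
      ring
    · simp only [Pi.add_apply, Pi.pow_apply]
      ring
  rw [intervalIntegral.integral_eq_sub_of_hasDerivAt h]
  · ring
  · exact (by fun_prop : Continuous fun t : ℝ => c0 + c1 * (t - a)).intervalIntegrable a b

/-- a trapezoid in a convex set -/
theorem trap (N : Set (ℝ × ℝ)) (hN : Convex ℝ N) (a b l r l' r' : ℝ) (hab : a ≤ b) (h1 : (a, l) ∈ N)
    (h2 : (a, r) ∈ N) (h3 : (b, l') ∈ N) (h4 : (b, r') ∈ N) (hlr : l ≤ r) (hlr' : l' ≤ r') :
    ENNReal.ofReal ((b - a) * ((r - l) + (r' - l')) / 2) ≤ volume (strip N a b) := by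
  rcases hab.eq_or_lt with rfl | hab
  · simp
  have hb : 0 < b - a := sub_pos.2 hab
  set f : ℝ → ℝ := fun t => l + (l' - l) / (b - a) * (t - a) with hf
  set g : ℝ → ℝ := fun t => r + (r' - r) / (b - a) * (t - a) with hg
  have hfc : Continuous f := by fun_prop
  have hgc : Continuous g := by fun_prop
  have key : ∀ t ∈ Ioo a b, (t, f t) ∈ N ∧ (t, g t) ∈ N ∧ f t ≤ g t := by
    intro t ht
    have ht1 : 0 < t - a := sub_pos.2 ht.1
    have ht2 : 0 < b - t := sub_pos.2 ht.2
    have hu : 0 ≤ (b - t) / (b - a) := by positivity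
    have hv : 0 ≤ (t - a) / (b - a) := by positivity
    have huv : (b - t) / (b - a) + (t - a) / (b - a) = 1 := by
      field_simp
      ring
    refine ⟨?_, ?_, ?_⟩
    · have := hN h1 h3 hu hv huv
      have e : ((b - t) / (b - a)) • ((a, l) : ℝ × ℝ) + ((t - a) / (b - a)) • ((b, l') : ℝ × ℝ) = (t, f t) := by
        simp only [Prod.smul_mk, Prod.mk_add_mk, smul_eq_mul, hf, Prod.mk.injEq]
        constructor
        · field_simp
          ring
        · field_simp
          ring
      rwa [e] at this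
    · have := hN h2 h4 hu hv huv
      have e : ((b - t) / (b - a)) • ((a, r) : ℝ × ℝ) + ((t - a) / (b - a)) • ((b, r') : ℝ × ℝ) = (t, g t) := by
        simp only [Prod.smul_mk, Prod.mk_add_mk, smul_eq_mul, hg, Prod.mk.injEq]
        constructor
        · field_simp
          ring
        · field_simp
          ring
      rwa [e] at this
    · have e : g t - f t = ((b - t) / (b - a)) * (r - l) + ((t - a) / (b - a)) * (r' - l') := by
        simp only [hf, hg]
        field_simp
        ring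
      have : 0 ≤ g t - f t := by
        rw [e]
        have := mul_nonneg hu (sub_nonneg.2 hlr)
        have := mul_nonneg hv (sub_nonneg.2 hlr')
        linarith
      linarith
  have hsub : regionBetween f g (Ioo a b) ⊆ strip N a b := by
    rintro ⟨t, s⟩ ⟨ht, hs⟩
    simp only at ht hs
    obtain ⟨k1, k2, k3⟩ := key t ht
    refine ⟨?_, ht, mem_univ _⟩
    have hd : 0 < g t - f t := by linarith [hs.1, hs.2]
    have hu : 0 ≤ (g t - s) / (g t - f t) := div_nonneg (by linarith [hs.2]) hd.le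
    have hv : 0 ≤ (s - f t) / (g t - f t) := div_nonneg (by linarith [hs.1]) hd.le
    have huv : (g t - s) / (g t - f t) + (s - f t) / (g t - f t) = 1 := by
      rw [← add_div]
      rw [show g t - s + (s - f t) = g t - f t by ring]
      exact div_self hd.ne'
    have := hN k1 k2 hu hv huv
    have e : ((g t - s) / (g t - f t)) • ((t, f t) : ℝ × ℝ) + ((s - f t) / (g t - f t)) • ((t, g t) : ℝ × ℝ)
        = (t, s) := by
      simp only [Prod.smul_mk, Prod.mk_add_mk, smul_eq_mul, Prod.mk.injEq]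
      constructor
      · rw [← add_mul, huv, one_mul]
      · have hd' := hd.ne'
        field_simp
        ring
    rwa [e] at this
  refine le_trans ?_ (measure_mono hsub)
  have hfi : IntegrableOn f (Ioo a b) := (hfc.integrableOn_Icc (a := a) (b := b)).mono_set Ioo_subset_Icc_self
  have hgi : IntegrableOn g (Ioo a b) := (hgc.integrableOn_Icc (a := a) (b := b)).mono_set Ioo_subset_Icc_self
  have hvol := volume_regionBetween_eq_integral hfi hgi measurableSet_Ioo (fun t ht => (key t ht).2.2)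
  have hvol' : volume (regionBetween f g (Ioo a b)) = ENNReal.ofReal (∫ y in Ioo a b, (g - f) y) := hvol
  rw [hvol']
  apply ENNReal.ofReal_le_ofReal
  rw [← integral_Ioc_eq_integral_Ioo, ← intervalIntegral.integral_of_le hab.le]
  have e : ∀ t, (g - f) t = (r - l) + (((r' - l') - (r - l)) / (b - a)) * (t - a) := by
    intro t
    simp only [Pi.sub_apply, hf, hg]
    ring
  rw [intervalIntegral.integral_congr (fun t _ => e t), int_lin]
  have hb' := hb.ne'
  apply le_of_eq
  field_simp
  ring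

/-- row PAC -/
theorem pac : PacStmt := by
  intro M hM x q hx1 hx2 h10 h01 hm11 hxx hq hqx hlev
  -- coordinates: level and first coordinate
  set φ : ℝ × ℝ → ℝ × ℝ := fun z => (z.2, z.2 + z.1) with hφ
  have hMm : MeasurableSet M := hM.cpt.isClosed.measurableSet
  have hmp : MeasurePreserving φ (volume : Measure (ℝ × ℝ)) volume :=
    measurePreserving_prod_add_swap (volume : Measure ℝ) (volume : Measure ℝ)
  set N : Set (ℝ × ℝ) := φ ⁻¹' M with hN
  have hvolN : volume N = volume M := hmp.measure_preimage hMm.nullMeasurableSet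
  have hNm : MeasurableSet N := hmp.measurable hMm
  have hNc : Convex ℝ N := by
    intro z hz w hw a b ha hb hab
    have := hM.cvx hz hw ha hb hab
    have e : a • φ z + b • φ w = φ (a • z + b • w) := by
      simp only [hφ, Prod.smul_mk, Prod.mk_add_mk, Prod.fst_add, Prod.snd_add, Prod.smul_fst, Prod.smul_snd,
        smul_eq_mul, Prod.mk.injEq, true_and]
      ring
    rw [e] at this
    exact this
  have hNs : ∀ t s : ℝ, (t, s) ∈ N → (-t, -s) ∈ N := by
    intro t s h
    have := hM.sym _ h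
    have e : -φ (t, s) = φ (-t, -s) := by
      simp only [hφ, Prod.neg_mk, Prod.mk.injEq, true_and]
      ring
    rw [e] at this
    exact this
  have hx0 : 0 < x := by linarith
  -- the level of `q`
  set lam : ℝ := q.2 - q.1 with hlam
  have hlam1 : 1 ≤ lam := by
    have : 1 ≤ 1 / x := by
      rw [le_div_iff₀ hx0]
      linarith
    linarith
  have hlam0 : 0 < lam := by linarith
  set t1 : ℝ := 1 / x with ht1
  have ht11 : 1 ≤ t1 := by
    rw [ht1, le_div_iff₀ hx0]
    linarith
  have ht12 : t1 ≤ 2 := by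
    rw [ht1, div_le_iff₀ hx0]
    linarith
  set th : ℝ := t1 / lam with hth
  have hth0 : 0 ≤ th := by positivity
  have hth1 : th ≤ 1 := by
    rw [hth, div_le_one hlam0]
    exact hlev
  have hthl : th * lam = t1 := by
    rw [hth]
    field_simp
  -- the points of `N`
  have n0 : ((0, x) : ℝ × ℝ) ∈ N := by
    show ((x, x + 0) : ℝ × ℝ) ∈ M
    rw [add_zero]
    exact hxx
  have n0' : ((0, -x) : ℝ × ℝ) ∈ N := by
    have := hNs _ _ n0
    rwa [neg_zero] at this
  have n1 : ((1, 0) : ℝ × ℝ) ∈ N := by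
    show ((0, 0 + 1) : ℝ × ℝ) ∈ M
    rw [zero_add]
    exact h01
  have n1' : ((1, -1) : ℝ × ℝ) ∈ N := by
    show ((-1, -1 + 1) : ℝ × ℝ) ∈ M
    have := hM.sym _ h10
    rw [Prod.neg_mk] at this
    rw [neg_add_cancel]
    rwa [neg_zero] at this
  have n2 : ((2, -1) : ℝ × ℝ) ∈ N := by
    show ((-1, -1 + 2) : ℝ × ℝ) ∈ M
    rw [show (-1 : ℝ) + 2 = 1 by norm_num]
    exact hm11
  have nq : ((lam, q.1) : ℝ × ℝ) ∈ N := by
    show ((q.1, q.1 + lam) : ℝ × ℝ) ∈ M
    rw [hlam, show q.1 + (q.2 - q.1) = q.2 by ring]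
    exact hq
  have nq' : ((lam, q.1 - x) : ℝ × ℝ) ∈ N := by
    show ((q.1 - x, q.1 - x + lam) : ℝ × ℝ) ∈ M
    have e : ((q.1 - x, q.1 - x + lam) : ℝ × ℝ) = q - (x, x) := by
      rw [hlam]
      ext
      · rfl
      · simp only [Prod.snd_sub]
        ring
    rw [e]
    exact hqx
  have nt : ((t1, th * q.1 + (1 - th) * x) : ℝ × ℝ) ∈ N := by
    have := hNc n0 nq (sub_nonneg.2 hth1) hth0 (by ring)
    have e : (1 - th) • ((0, x) : ℝ × ℝ) + th • ((lam, q.1) : ℝ × ℝ) = (t1, th * q.1 + (1 - th) * x) := by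
      simp only [Prod.smul_mk, Prod.mk_add_mk, smul_eq_mul, Prod.mk.injEq]
      constructor
      · rw [mul_zero, zero_add, hthl]
      · ring
    rwa [e] at this
  have nt' : ((t1, th * q.1 - x) : ℝ × ℝ) ∈ N := by
    have := hNc n0' nq' (sub_nonneg.2 hth1) hth0 (by ring)
    have e : (1 - th) • ((0, -x) : ℝ × ℝ) + th • ((lam, q.1 - x) : ℝ × ℝ) = (t1, th * q.1 - x) := by
      simp only [Prod.smul_mk, Prod.mk_add_mk, smul_eq_mul, Prod.mk.injEq]
      constructor
      · rw [mul_zero, zero_add, hthl]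
      · ring
    rwa [e] at this
  have hl : th * q.1 - x ≤ th * q.1 + (1 - th) * x := by nlinarith
  -- the six trapezoids
  have v1 := trap N hNc 0 1 (-x) x (-1) 0 (by norm_num) n0' n0 n1' n1 (by linarith) (by norm_num)
  have v2 := trap N hNc 1 t1 (-1) 0 (th * q.1 - x) (th * q.1 + (1 - th) * x) ht11 n1' n1 nt' nt
    (by norm_num) hl
  have v3 := trap N hNc t1 2 (th * q.1 - x) (th * q.1 + (1 - th) * x) (-1) (-1) ht12 nt' nt n2 n2 hl le_rfl
  have n1n := hNs _ _ n1
  have n1n' := hNs _ _ n1'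
  have n2n := hNs _ _ n2
  have ntn := hNs _ _ nt
  have ntn' := hNs _ _ nt'
  have w1 := trap N hNc (-1) 0 (-0) (-(-1)) (-x) x (by norm_num) n1n n1n' n0' n0 (by norm_num) (by linarith)
  have w2 := trap N hNc (-t1) (-1) (-(th * q.1 + (1 - th) * x)) (-(th * q.1 - x)) (-0) (-(-1)) (by linarith)
    ntn ntn' n1n n1n' (by linarith) (by norm_num)
  have w3 := trap N hNc (-2) (-t1) (-(-1)) (-(-1)) (-(th * q.1 + (1 - th) * x)) (-(th * q.1 - x)) (by linarith)
    n2n n2n ntn ntn' le_rfl (by linarith)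
  have s1 := strip_add N hNm 0 1 t1 (by norm_num) ht11
  have s2 := strip_add N hNm 0 t1 2 (by linarith) ht12
  have s3 := strip_add N hNm (-2) (-t1) (-1) (by linarith) (by linarith)
  have s4 := strip_add N hNm (-2) (-1) 0 (by linarith) (by linarith)
  have s5 := strip_add N hNm (-2) 0 2 (by linarith) (by linarith)
  have s6 : volume (strip N (-2) 2) ≤ volume N := measure_mono inter_subset_left
  -- add everything up
  have hfin : volume M ≠ ⊤ := hM.cpt.measure_lt_top.ne
  have hfinS : ∀ a b, volume (strip N a b) ≠ ⊤ := by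
    intro a b
    refine ne_top_of_le_ne_top hfin ?_
    rw [← hvolN]
    exact measure_mono inter_subset_left
  have toR : ∀ (c a b : ℝ), ENNReal.ofReal c ≤ volume (strip N a b) → c ≤ (volume (strip N a b)).toReal :=
    fun c a b h => (ENNReal.ofReal_le_iff_le_toReal (hfinS a b)).1 h
  have addR : ∀ a b c : ℝ, volume (strip N a b) + volume (strip N b c) ≤ volume (strip N a c) →
      (volume (strip N a b)).toReal + (volume (strip N b c)).toReal ≤ (volume (strip N a c)).toReal := by
    intro a b c h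
    rw [← ENNReal.toReal_add (hfinS a b) (hfinS b c)]
    exact ENNReal.toReal_mono (hfinS a c) h
  have v1 := toR _ _ _ v1
  have v2 := toR _ _ _ v2
  have v3 := toR _ _ _ v3
  have w1 := toR _ _ _ w1
  have w2 := toR _ _ _ w2
  have w3 := toR _ _ _ w3
  have s1 := addR _ _ _ s1
  have s2 := addR _ _ _ s2
  have s3 := addR _ _ _ s3
  have s4 := addR _ _ _ s4
  have s5 := addR _ _ _ s5
  have s6 : (volume (strip N (-2) 2)).toReal ≤ (volume M).toReal := by
    rw [← hvolN]
    exact ENNReal.toReal_mono (by rw [hvolN]; exact hfin) s6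
  show 3 * x + 1 / x ≤ (volume M).toReal
  have hxt : x * t1 = 1 := by
    rw [ht1]
    field_simp
  have m1 : 0 ≤ (t1 - 1) * ((1 - th) * x) := mul_nonneg (by linarith) (mul_nonneg (by linarith) hx0.le)
  have m2 : 0 ≤ (2 - t1) * ((1 - th) * x) := mul_nonneg (by linarith) (mul_nonneg (by linarith) hx0.le)
  rw [← ht1]
  nlinarith [v1, v2, v3, w1, w2, w3, s1, s2, s3, s4, s5, s6, m1, m2, hxt]

end Pool.Agent.UL3.H75
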